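import Pool.Agent.W307.SE.Stm
import Pool.Agent.W135.RT.Par6

set_option autoImplicit false

namespace Pool.Agent.W645.SE

open Pool.Agent.W307.RT Pool.Agent.W135.RT

theorem roots6 {A B u v : ℤ} {s : ℚ} (hR : R6 A B u v s) :
    ∃ (e1 e2 e3 : ℤ) (q : ℚ), q ≠ 0 ∧
        (∀ x : ℤ, x ^ 3 + A * x + B = (x - e1) * (x - e2) * (x - e3)) ∧
        ((e2 - e1 : ℤ) : ℚ) = -(M6 u v : ℚ) * q ^ 2 ∧
        ((e3 - e1 : ℤ) : ℚ) = -(N6 u v : ℚ) * q ^ 2 := by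
  have ea := hR.ea
  have eb := hR.eb
  set M : ℚ := (M6 u v : ℚ)
  set N : ℚ := (N6 u v : ℚ)
  have key : ∀ x : ℚ, x ^ 3 + A * x + B = (x - s ^ 2 * (M + N) / 3) *
      (x - (s ^ 2 * (M + N) / 3 - s ^ 2 * M)) * (x - (s ^ 2 * (M + N) / 3 - s ^ 2 * N)) := by
    intro x
    linear_combination (x / 3) * ea + (1 / 27) * eb
  obtain ⟨e1, h1⟩ := int_root (A := A) (B := B) (e := s ^ 2 * (M + N) / 3) (by rw [key]; ring)
  obtain ⟨e2, h2⟩ := int_root (A := A) (B := B) (e := s ^ 2 * (M + N) / 3 - s ^ 2 * M)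
    (by rw [key]; ring)
  obtain ⟨e3, h3⟩ := int_root (A := A) (B := B) (e := s ^ 2 * (M + N) / 3 - s ^ 2 * N)
    (by rw [key]; ring)
  refine ⟨e1, e2, e3, s, hR.s0, fun x => ?_, ?_, ?_⟩
  · have := key x
    rw [h2, h3, h1] at this
    exact_mod_cast this
  · push_cast
    rw [← h1, ← h2]; ring
  · push_cast
    rw [← h1, ← h3]; ring

theorem parx6 : Pool.Agent.W307.SE.PARX 6 24 Pool.Agent.W307.RT.M6 Pool.Agent.W307.RT.N6 := by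
  refine ⟨147456 ^ 3, FF, fun H => ⟨?_, ?_⟩⟩
  · intro c hc c' hc' hcc
    obtain ⟨s, hR⟩ := FF_spec hc
    obtain ⟨s', hR'⟩ := FF_spec hc'
    rw [← hcc] at hR'
    have hc1 := memCv (Finset.mem_coe.mp hc)
    have hc1' := memCv (Finset.mem_coe.mp hc')
    obtain ⟨h1, h2⟩ := inj hR hR' hc1.2.2.2.1 hc1'.2.2.2.1
    exact Prod.ext h1 h2
  · intro c hc
    obtain ⟨s, hR⟩ := FF_spec hc
    have hc1 := memCv hc
    exact ⟨hR.cop, hR.m0, hR.n0, hR.mn, bound2 hR H hc1.2.1 _ (Or.inl rfl),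
      bound2 hR H hc1.2.1 _ (Or.inr rfl), roots6 hR⟩

end Pool.Agent.W645.SE
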